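import Pool.Agent.Helper79.ML.Wt

/-!
# ML, block G3: the weights
-/

set_option autoImplicit false

namespace Pool.Agent.ML

open Polynomial NumberField IsDedekindDomain
open Pool.Agent.HG (Pr nm Ctx Gd Over StmtMert StmtSplit StmtDer)
open Pool.Agent.Helper99.HG (CD pf Nm Bad)
open Pool.Agent.MP (SysR TAR)
open Pool.Agent.Helper99.ML (BTb WJb TBRb)
open scoped IntermediateField

theorem stab_ΩJ {k L : Type} [Field k] [NumberField k] [Field L] [NumberField L] [Algebra k L]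
    [IsGalois k L] {f : k[X]} (X : Ctx k L f) (hm : 0 < X.m) (J : Finset (Fin X.m)) :
    ∀ σ : L ≃ₐ[k] L, ∀ θ ∈ X.ΩJ5 hm J, σ θ ∈ X.ΩJ5 hm J := by
  intro σ θ hθ
  rw [Ctx.mem_ΩJ5] at hθ ⊢
  refine ⟨?_, ?_⟩
  · have h1 := hθ.1
    rw [X.mem_Ω, mem_rootSet_of_ne X.sepf.ne_zero] at h1 ⊢
    have h2 := aeval_algHom_apply (σ : L →ₐ[k] L) θ f
    rw [h1, map_zero] at h2
    exact h2
  · rw [X.cmp_congr5 hm (minpoly.algEquiv_eq σ θ)]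
    exact hθ.2

/-- **BLOCK G3** -/
theorem g3 : StmtG3 := by
  classical
  intro hMe hSp hDer k L _ _ _ _ _ _ f n ℓ _ hℓ hdvd hn2 hmu Al Om hOm hrat hex K
  obtain ⟨e₀, he₀, hAl⟩ := hex
  obtain ⟨B₀, hB₀⟩ := HG.exists_B5 k
  obtain ⟨δs, Cs, Qs, hδs, hQs, hCs⟩ := hSp k L B₀ hB₀
  obtain ⟨_, C₂, hC₂⟩ := hMe k B₀ hB₀
  have hℓ0 : (0 : ℝ) < ℓ := by exact_mod_cast hℓ.pos
  have ha0 : (0 : ℝ) < (1 / (ℓ : ℝ)) ^ (f.rootSet_finite L).toFinset.card := by positivity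
  have hKpos : (0 : ℝ) < K + (1 / (ℓ : ℝ)) ^ (f.rootSet_finite L).toFinset.card := by positivity
  refine ⟨(1 / (ℓ : ℝ)) ^ (f.rootSet_finite L).toFinset.card / 2 * δs /
    (K + (1 / (ℓ : ℝ)) ^ (f.rootSet_finite L).toFinset.card), by positivity,
    fun X hm hfin ι Vι w g hK Q hQ B hB δ C hδ hC => ?_⟩
  obtain ⟨R₀, hR₀⟩ : ∃ R₀ : Set (Pr k), ∀ v, v ∈ R₀ := ⟨Set.univ, Set.mem_univ⟩
  have hset : {p : Pr k × Fin n | ¬ ℓ ∣ (p.2 : ℕ)} =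
      {p : Pr k × Fin n | p.2 ∈ (Finset.univ : Finset (Fin n)).filter (fun e : Fin n => ¬ ℓ ∣ (e : ℕ)) ∧
        p.1 ∈ R₀} := by
    ext p
    simp [hR₀]
  have hκ : ((n - n / ℓ : ℕ) : ℝ) =
      ((Finset.univ : Finset (Fin n)).filter (fun e : Fin n => ¬ ℓ ∣ (e : ℕ))).card * (1 : ℝ) := by
    rw [card_lab hℓ.pos hdvd, mul_one]
  have h2 : ∀ x : ℕ, 2 ≤ x → |∑ v ∈ (B₀ x).filter (· ∈ R₀), (1 : ℝ) / nm v -
      1 * Real.log (Real.log x)| ≤ C₂ := by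
    intro x hx
    have h3 := hC₂ x hx
    rw [one_mul, Finset.filter_true_of_mem (fun v _ => hR₀ v)]
    exact h3
  rw [hset, hκ]
  have hE : e₀ ∈ (Finset.univ : Finset (Fin n)).filter (fun e : Fin n => ¬ ℓ ∣ (e : ℕ)) :=
    Finset.mem_filter.2 ⟨Finset.mem_univ _, he₀⟩
  refine ⟨sysL hMe _ _ hB₀ h2, ⟨_, card_V_le X n ℓ hm hfin ι Vι Al w g K hK⟩, fun J => ?_⟩
  rcases Nat.lt_or_ge ((X.ΩJ5 hm J).filter Om).card 5 with h5 | h5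
  · refine Or.inl ?_
    obtain ⟨δ', C', Q', hδ', hQ', hC'⟩ := hDer k L ((X.ΩJ5 hm J).filter Om) (by
        intro σ θ hθ
        rw [Finset.mem_filter] at hθ ⊢
        exact ⟨stab_ΩJ X hm J σ θ hθ.1, hOm σ θ hθ.2⟩) (by
        rintro θ hθ a rfl
        rw [Finset.mem_filter, Ctx.mem_ΩJ5, Ctx.mem_Ω, mem_rootSet] at hθ
        have h1 := hθ.1.1.2
        rw [aeval_algebraMap_apply, map_eq_zero] at h1
        exact hrat a hθ.2 (by rw [← h1]; rfl)) (by omega) B₀ hB₀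
    have hgoal := tarL X n ℓ hm hfin ι Vι Al w g J _ R₀ e₀ hE hB₀ Q' hδ' hC' ?_
    · exact Eq.mpr (congrArg (fun R : Set (Pr k × Fin n) =>
        TAR (cdL X n ℓ hm hfin ι Vι Al w g) R J) hset) hgoal
    intro v hv hgd
    refine ⟨hR₀ v, fun θ hθ hA => ?_⟩
    have h8 := X.FJ_sub_ΩJ5 hm J v hθ
    rw [Ctx.mem_FJ5] at hθ
    refine hQ' v hv (X.P v) (X.comap v) θ (Finset.mem_filter.2 ⟨h8, hAl θ hA⟩) ?_
    have h9 := X.frob v θ (X.val_root hgd hθ.1.1)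
    rw [hθ.1.2, Valuation.map_sub_swap] at h9
    exact h9
  · refine Or.inr ?_
    have hc : 5 ≤ (X.ΩJ5 hm J).card := h5.trans (Finset.card_filter_le _ _)
    have hgoal := tbrL X n ℓ hℓ.two_le K hδs hQs hB₀ hCs h2 _ ⟨e₀, hE⟩ hm hfin ι Vι Al w g hK Q hQ hB hδ hC J
      (Finset.card_pos.1 (by omega)) (num3 hℓ.two_le hc) (fun v _ _ => hR₀ v)
    exact Eq.mpr (congrArg (fun R : Set (Pr k × Fin n) =>
        TBRb (cdL X n ℓ hm hfin ι Vι Al w g) (1 / ℓ) R _ J) hset) hgoal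

end Pool.Agent.ML
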