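import Pool.Agent.Helper79.ML.G3
import Pool.Agent.Helper45.ML.DefsR

/-!
# ML, block G3R: the weights relative to the primes with a root
-/

set_option autoImplicit false

namespace Pool.Agent.ML

open Polynomial NumberField IsDedekindDomain
open Pool.Agent.HG (Pr nm Ctx Gd Over)
open Pool.Agent.MP (SysR TAR)
open Pool.Agent.Helper99.ML (BTb WJb TBRb)
open scoped IntermediateField

/-- **BLOCK G3R** -/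
theorem g3R : StmtG3R := by
  classical
  intro hMe hSp hDK hW3 k L _ _ _ _ _ _ f ℓ _ hℓ hmu hf h4 K
  obtain ⟨B₀, hB₀⟩ := HG.exists_B5 k
  obtain ⟨δs, Cs, Qs, hδs, hQs, hCs⟩ := hSp k L B₀ hB₀
  have hℓ0 : (0 : ℝ) < ℓ := by exact_mod_cast hℓ.pos
  have ha0 : (0 : ℝ) < (1 / (ℓ : ℝ)) ^ (f.rootSet_finite L).toFinset.card := by positivity
  have hKpos : (0 : ℝ) < K + (1 / (ℓ : ℝ)) ^ (f.rootSet_finite L).toFinset.card := by positivity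
  refine ⟨(1 / (ℓ : ℝ)) ^ (f.rootSet_finite L).toFinset.card / 2 * δs /
    (K + (1 / (ℓ : ℝ)) ^ (f.rootSet_finite L).toFinset.card), by positivity,
    fun X hm hfin ι Vι w g hK Q hQ B hB δ C hδ hC => ?_⟩
  obtain ⟨⟨C₂, h2⟩, hJ⟩ := hDK hW3 k L f X hf B₀ hB₀
  obtain ⟨R₀, hR₀⟩ : ∃ R₀ : Set (Pr k), ∀ v, v ∈ R₀ ↔ (X.Fx v).Nonempty := ⟨{v | (X.Fx v).Nonempty}, fun _ => Iff.rfl⟩
  have hset : {p : Pr k × Fin ℓ | ¬ ℓ ∣ (p.2 : ℕ) ∧ (X.Fx p.1).Nonempty} =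
      {p : Pr k × Fin ℓ | p.2 ∈ (Finset.univ : Finset (Fin ℓ)).filter (fun e : Fin ℓ => ¬ ℓ ∣ (e : ℕ)) ∧
        p.1 ∈ R₀} := by
    ext p
    simp [hR₀]
  have hκ : ((ℓ - 1 : ℕ) : ℝ) =
      ((Finset.univ : Finset (Fin ℓ)).filter (fun e : Fin ℓ => ¬ ℓ ∣ (e : ℕ))).card := by
    rw [card_lab hℓ.pos (dvd_refl ℓ), Nat.div_self hℓ.pos]
  have h2' : ∀ x : ℕ, 2 ≤ x → |∑ v ∈ (B₀ x).filter (· ∈ R₀), (1 : ℝ) / nm v -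
      ((Nat.card {σ : L ≃ₐ[k] L // ∃ θ ∈ X.Ω, σ θ = θ} : ℝ) / Nat.card (L ≃ₐ[k] L)) * Real.log (Real.log x)| ≤ C₂ := by
    intro x hx
    convert h2 x hx
    exact hR₀ _
  rw [hset, hκ]
  -- a root
  obtain ⟨θ₁, hθ₁⟩ : X.Ω.Nonempty := by
    have h1 : 0 < X.cls.card := hm
    obtain ⟨q, hq⟩ := Finset.card_pos.1 h1
    unfold Ctx.cls at hq
    obtain ⟨θ, hθ, -⟩ := Finset.mem_image.1 hq
    exact ⟨θ, hθ⟩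
  -- the label `1`
  have hE : (⟨1, hℓ.one_lt⟩ : Fin ℓ) ∈ (Finset.univ : Finset (Fin ℓ)).filter (fun e : Fin ℓ => ¬ ℓ ∣ (e : ℕ)) :=
    Finset.mem_filter.2 ⟨Finset.mem_univ _, fun h => hℓ.one_lt.ne' (Nat.dvd_one.1 h)⟩
  refine ⟨sysL hMe _ _ hB₀ h2', ⟨_, card_V_le X ℓ ℓ hm hfin ι Vι _ w g K hK⟩, fun J => ?_⟩
  by_cases hcase : X.ΩJ5 hm J = ∅ ∨ ℓ ^ (X.ΩJ5 hm J).card ≤ (X.ΩJ5 hm J).card * ℓ ^ 2
  · refine Or.inl ?_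
    have hsub : ((X.ΩJ5 hm J : Finset L) : Set L) ⊆ f.rootSet L := by
      intro θ hθ
      rw [Finset.mem_coe, Ctx.mem_ΩJ5, Ctx.mem_Ω] at hθ
      exact hθ.1
    have hσ : ∃ σ : L ≃ₐ[k] L, (∃ θ ∈ X.Ω, σ θ = θ) ∧ ∀ θ ∈ X.ΩJ5 hm J, σ θ ≠ θ := by
      rcases hcase with h | h
      · exact ⟨1, ⟨θ₁, hθ₁, rfl⟩, fun θ hθ => by
          rw [h] at hθ
          exact absurd hθ (Finset.notMem_empty θ)⟩
      · obtain ⟨σ, ⟨θ, hθ, hσ⟩, hσ'⟩ := h4 (X.ΩJ5 hm J) (stab_ΩJ X hm J) hsub h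
        exact ⟨σ, ⟨θ, (X.mem_Ω θ).2 hθ, hσ⟩, hσ'⟩
    obtain ⟨δ', C', hδ', hC'⟩ := hJ (X.ΩJ5 hm J) (stab_ΩJ X hm J) hσ
    have hgoal := tarL X ℓ ℓ hm hfin ι Vι (fun _ _ => True) w g J _ R₀ ⟨1, hℓ.one_lt⟩ hE hB₀
      {v : Pr k | (X.Fx v).Nonempty ∧ ∀ θ ∈ X.ΩJ5 hm J, X.F v θ ≠ θ} (C := C') hδ' ?_ ?_
    · exact Eq.mpr (congrArg (fun R : Set (Pr k × Fin ℓ) =>
        TAR (cdL X ℓ ℓ hm hfin ι Vι (fun _ _ => True) w g) R J) hset) hgoal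
    · intro x hx
      convert hC' x hx
      exact Iff.rfl
    · rintro v ⟨hv1, hv2⟩ hgd
      refine ⟨(hR₀ v).2 hv1, fun θ hθ _ => ?_⟩
      have h8 := X.FJ_sub_ΩJ5 hm J v hθ
      rw [Ctx.mem_FJ5] at hθ
      exact hv2 θ h8 hθ.1.2
  · refine Or.inr ?_
    rw [not_or, not_le] at hcase
    have hgoal := tbrL X ℓ ℓ hℓ.two_le K hδs hQs hB₀ hCs h2' _ ⟨_, hE⟩
      hm hfin ι Vι (fun _ _ => True) w g hK Q hQ hB hδ hC J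
      (Finset.nonempty_iff_ne_empty.2 hcase.1) hcase.2
      (fun v _ h => (hR₀ v).2 ⟨θ₁, by
        unfold Ctx.Fx
        exact Finset.mem_filter.2 ⟨hθ₁, h θ₁ hθ₁⟩⟩)
    exact Eq.mpr (congrArg (fun R : Set (Pr k × Fin ℓ) =>
        TBRb (cdL X ℓ ℓ hm hfin ι Vι (fun _ _ => True) w g) (1 / ℓ) R _ J) hset) hgoal

end Pool.Agent.ML
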