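import Pool.Agent.Helper45.ML.Defs
import Pool.Agent.Helper97.M.QMD

/-!
# Project ML, block QMD: the density of the set `QM` (as `M.qMD`, helper97)
-/

set_option autoImplicit false
set_option linter.unusedSectionVars false

namespace Pool.Agent.ML

open VC IntermediateField NumberField IsDedekindDomain Pool.Agent.SC
open Pool.Agent.L (Inert L0 MM SamePlace OverV)
open Pool.Agent.LN (Geo Act HasSec GoodCurve IsRam DecPt)
open Pool.Agent.M (UR NN Moves OverPl inL0)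

private theorem toL79 {k K0 E U : Type} [Field k] [Field K0] [Field E] [Field U] [Algebra k K0]
    [Algebra k E] [Algebra E U] [Algebra K0 U] {n : ℕ} {r : U} {c : k}
    {Φ : (E ≃ₐ[k] E) →* (U ≃+* U)} (h : Act (K0 := K0) n r c Φ) :
    L.Act (K0 := K0) (0 : U) (0 : k) Φ :=
  { const := h.const
    fixK := h.fixK
    cont := h.cont
    tw := fun _ _ _ => by rw [map_zero, zero_mul, mul_zero] }

theorem qMD (hPI : StmtPI) (hW4 : StmtW4) (hQW : StmtQW) (hW2 : StmtW2) : StmtQMD := by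
  classical
  intro k K0 E U _ _ _ _ _ _ _ _ _ _ _ _ n ℓ h r hn hℓ hdvd hmu hGeo ε hε
  have hcl := hGeo.clE
  have hcE : CharZero E := charZero_of_injective_algebraMap (algebraMap k E).injective
  have halg := hGeo.algE
  have hac : IsAlgClosure k E := ⟨hcl, halg⟩
  have hnor : Normal k E := IsAlgClosure.normal k E
  have hgal : IsGalois k E := ⟨⟩
  by_cases hex : ∃ (c : k) (Φ : (E ≃ₐ[k] E) →* (U ≃+* U)), c ≠ 0 ∧ Act (K0 := K0) n r c Φ
  swap
  · refine ⟨1, ⊥, le_refl _, inferInstance, inferInstance, fun c Φ hc hA => ?_⟩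
    exact absurd ⟨c, Φ, hc, hA⟩ hex
  obtain ⟨c₀, Φ₀, hc₀, hA₀⟩ := hex
  obtain ⟨P, _, _, κ, hsurj, hmul, hzero, hact, htor, hdiv, hfin, hcont⟩ :=
    hPI k K0 E U n ℓ h r hn hℓ hdvd hmu hGeo c₀ Φ₀ hc₀ hA₀
  obtain ⟨K, hK, hqw⟩ := hQW k K0 E U n ℓ h r hn hℓ hdvd hmu hGeo
  have hL0ff := hGeo.ff
  -- elements of `L0`
  have hURL : ∀ (l : U) (j : ℕ), l ≠ 0 → l ∈ L0 E K0 (U := U) → UR E K0 (ℓ ^ j) l := by
    intro l j hl0 hl
    refine ⟨hl0, ⟨l, hl⟩ ^ ℓ ^ j, rfl, fun Q => ?_⟩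
    rw [SCVP.ord_pow hL0ff Q (by
      intro h0
      exact hl0 (congrArg Subtype.val h0))]
    exact Dvd.intro _ rfl
  have hURinv : ∀ (w : U) (N : ℕ), UR E K0 N w → UR E K0 N w⁻¹ := by
    rintro w N ⟨hw0, f, hf, hord⟩
    have hf0 : f ≠ 0 := by
      rintro rfl
      exact pow_ne_zero N hw0 hf.symm
    refine ⟨inv_ne_zero hw0, f⁻¹, ?_, fun Q => ?_⟩
    · rw [inv_pow, ← hf]
      rfl
    · rw [VC.ord_inv hL0ff Q hf0]
      exact (dvd_neg).2 (hord Q)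
  have hURmul : ∀ (w w' : U) (N : ℕ), UR E K0 N w → UR E K0 N w' → UR E K0 N (w * w') := by
    rintro w w' N ⟨hw0, f, hf, hord⟩ ⟨hw0', f', hf', hord'⟩
    have hf0 : f ≠ 0 := by
      rintro rfl
      exact pow_ne_zero N hw0 hf.symm
    have hf0' : f' ≠ 0 := by
      rintro rfl
      exact pow_ne_zero N hw0' hf'.symm
    refine ⟨mul_ne_zero hw0 hw0', f * f', ?_, fun Q => ?_⟩
    · rw [mul_pow, ← hf, ← hf']
      rfl
    · rw [VC.ord_mul hL0ff Q hf0 hf0']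
      exact dvd_add (hord Q) (hord' Q)
  have hκ0 : ∀ l : U, l ≠ 0 → l ∈ L0 E K0 (U := U) → κ l = 0 := fun l h1 h2 =>
    (hzero l 0 (hURL l 0 h1 h2)).2 h2
  have hκinv : ∀ (w : U) (j : ℕ), UR E K0 (ℓ ^ j) w → κ w⁻¹ = - κ w := by
    intro w j hw
    have h1 := hmul w w⁻¹ j j hw (hURinv _ _ hw)
    rw [mul_inv_cancel₀ hw.1, hκ0 1 one_ne_zero (one_mem _)] at h1
    exact (neg_eq_of_add_eq_zero_right h1.symm).symm
  have hκeq : ∀ (w w' : U) (j : ℕ), UR E K0 (ℓ ^ j) w → UR E K0 (ℓ ^ j) w' →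
      (κ w = κ w' ↔ w * w'⁻¹ ∈ L0 E K0 (U := U)) := by
    intro w w' j hw hw'
    rw [← hzero _ j (hURmul _ _ _ hw (hURinv _ _ hw')), hmul _ _ j j hw (hURinv _ _ hw'),
      hκinv w' j hw', ← sub_eq_add_neg, sub_eq_zero]
  have hκpow : ∀ (w : U) (j : ℕ), UR E K0 (ℓ ^ j) w → ∀ i : ℕ, κ (w ^ i) = i • κ w ∧
      UR E K0 (ℓ ^ j) (w ^ i) := by
    intro w j hw i
    induction i with
    | zero =>
      rw [pow_zero, zero_smul]
      exact ⟨hκ0 1 one_ne_zero (one_mem _), hURL 1 j one_ne_zero (one_mem _)⟩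
    | succ i ih =>
      rw [pow_succ, succ_nsmul]
      exact ⟨by rw [hmul _ _ j j ih.2 hw, ih.1], hURmul _ _ _ ih.2 hw⟩
  -- open stabilisers
  have hopen : ∀ x : P, IsOpen {g : E ≃ₐ[k] E | g • x = x} := by
    intro x
    obtain ⟨L, hL, hLx⟩ := hcont x
    have h1 : IsOpen (L.fixingSubgroup : Set (E ≃ₐ[k] E)) := L.fixingSubgroup_isOpen
    have h2 : L.fixingSubgroup ≤ MulAction.stabilizer (E ≃ₐ[k] E) x := by
      intro g hg
      exact hLx g ((IntermediateField.mem_fixingSubgroup_iff L g).1 hg)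
    exact Subgroup.isOpen_mono h2 h1
  have hmemL : ∀ (L : IntermediateField k E), Normal k L → ∀ (g : E ≃ₐ[k] E) (z : E), z ∈ L →
      g z ∈ L := by
    intro L hL g z hz
    have h1 := (IntermediateField.normal_iff_forall_map_le'.1 hL) g
    exact h1 ⟨z, hz, rfl⟩
  -- elements with finitely many fixed points
  have hdense : ∀ H : Subgroup (E ≃ₐ[k] E), IsOpen (H : Set (E ≃ₐ[k] E)) → ∀ x : E ≃ₐ[k] E,
      ∃ g ∈ H, {p : P | (g * x) • p = p}.Finite := by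
    intro H hH x
    obtain ⟨L, hLfd, hLn, hLH⟩ := (krullTopology_mem_nhds_one_iff_of_normal k E (H : Set _)).1
      (hH.mem_nhds H.one_mem)
    obtain ⟨g, hg, T, hT⟩ := hW4 k K0 E U n ℓ h r hn hℓ hdvd hmu hGeo c₀ Φ₀ hc₀ hA₀ L hLfd x
    refine ⟨g * x⁻¹, hLH ?_, ?_⟩
    · rw [SetLike.mem_coe, IntermediateField.mem_fixingSubgroup_iff]
      intro z hz
      have h1 := hg (x⁻¹ z) (hmemL L hLn x⁻¹ z hz)
      show g (x⁻¹ z) = z
      rw [h1]
      exact x.apply_symm_apply z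
    · rw [inv_mul_cancel_right]
      refine (T.finite_toSet.image κ).subset ?_
      intro p hp
      obtain ⟨w, j, hw, rfl⟩ := hsurj p
      have h1 : κ (Φ₀ g w) = κ w := by rw [hact g w j hw]; exact hp
      obtain ⟨t, ht, ht0, htw⟩ := hT w j hw ((hκeq _ _ j (M.UR_map (toL79 hA₀) g hw) hw).1 h1)
      refine ⟨t, ht, ?_⟩
      have h2 : (w * t⁻¹)⁻¹ ≠ 0 := inv_ne_zero (mul_ne_zero hw.1 (inv_ne_zero ht0))
      have h3 : t = w * (w * t⁻¹)⁻¹ := by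
        rw [mul_inv_rev, inv_inv, mul_comm t, ← mul_assoc, mul_inv_cancel₀ hw.1, one_mul]
      have h4 : (w * t⁻¹)⁻¹ ∈ L0 E K0 (U := U) := inv_mem htw
      rw [h3, hmul _ _ j j hw (hURL _ j h2 h4), hκ0 _ h2 h4, add_zero]
  obtain ⟨j, hj, hj2⟩ := hW2 ℓ hℓ (E ≃ₐ[k] E) P htor hdiv hfin hopen hdense ε hε
  -- the torsion is finite
  have hfinj : ∀ i : ℕ, {p : P | ℓ ^ i • p = 0}.Finite := by
    intro i
    induction i with
    | zero =>
      refine (Set.finite_singleton (0 : P)).subset ?_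
      intro p hp
      have h1 : (ℓ ^ 0 : ℕ) • p = 0 := hp
      rw [pow_zero, one_smul] at h1
      exact h1
    | succ i ih =>
      have h1 : {p : P | ℓ ^ (i + 1) • p = 0} ⊆ ⋃ q ∈ {q : P | ℓ ^ i • q = 0},
          {p : P | ℓ • p = q} := by
        intro p hp
        simp only [Set.mem_iUnion]
        refine ⟨ℓ • p, ?_, rfl⟩
        show ℓ ^ i • (ℓ • p) = 0
        rw [← mul_smul, ← pow_succ]
        exact hp
      refine (ih.biUnion fun q _ => ?_).subset h1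
      by_cases hq : ∃ p₀ : P, ℓ • p₀ = q
      · obtain ⟨p₀, hp₀⟩ := hq
        refine (hfin.image fun p => p₀ + p).subset ?_
        intro p hp
        refine ⟨p - p₀, ?_, add_sub_cancel _ _⟩
        show ℓ • (p - p₀) = 0
        rw [smul_sub, hp₀, sub_eq_zero]
        exact hp
      · refine Set.finite_empty.subset ?_
        intro p hp
        exact hq ⟨p, hp⟩
  have hnhds : (⋂ p ∈ {p : P | ℓ ^ j • p = 0}, {g : E ≃ₐ[k] E | g • p = p}) ∈
      nhds (1 : E ≃ₐ[k] E) := by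
    refine (Filter.biInter_mem (hfinj j)).2 fun p _ => (hopen p).mem_nhds ?_
    exact one_smul _ p
  obtain ⟨L, hLfd, hLn, hLS⟩ := (krullTopology_mem_nhds_one_iff_of_normal k E _).1 hnhds
  have hLgal : IsGalois k L := ⟨⟩
  refine ⟨K * j, L, Nat.mul_pos hK hj, hLfd, hLgal, fun c Φ hc hA => ?_⟩
  have hNn : L.fixingSubgroup.Normal := by
    refine ⟨fun n' hn' g => ?_⟩
    rw [IntermediateField.mem_fixingSubgroup_iff] at hn' ⊢
    intro z hz
    show g (n' (g⁻¹ z)) = z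
    rw [hn' _ (hmemL L hLn g⁻¹ z hz)]
    exact g.apply_symm_apply z
  have hNo : IsOpen (L.fixingSubgroup : Set (E ≃ₐ[k] E)) := L.fixingSubgroup_isOpen
  have h1 := hj2 L.fixingSubgroup hNn hNo (by
    intro g hg p hp
    have h2 := hLS hg
    simp only [Set.mem_iInter] at h2
    exact h2 p hp)
  have hfinQ : Finite ((E ≃ₐ[k] E) ⧸ L.fixingSubgroup) :=
    Subgroup.quotient_finite_of_isOpen _ hNo
  have hsame : ∀ (σ σ' : E ≃ₐ[k] E), ((σ : (E ≃ₐ[k] E) ⧸ L.fixingSubgroup) = σ') ↔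
      ∀ z ∈ L, σ z = σ' z := by
    intro σ σ'
    rw [QuotientGroup.eq, IntermediateField.mem_fixingSubgroup_iff]
    constructor
    · intro h2 z hz
      have h3 : σ⁻¹ (σ' z) = z := h2 z hz
      have h4 := congrArg σ h3
      rw [← h4]
      exact σ.apply_symm_apply _
    · intro h2 z hz
      show σ⁻¹ (σ' z) = z
      rw [← h2 z hz]
      exact σ.symm_apply_apply z
  -- the two cardinalities
  have hcard1 : Nat.card ((E ≃ₐ[k] E) ⧸ L.fixingSubgroup) ≤ Nat.card (L ≃ₐ[k] L) := by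
    have hlift : ∀ τ : L ≃ₐ[k] L, ∃ σ : E ≃ₐ[k] E, ∀ x : L, σ x = τ x := by
      intro τ
      obtain ⟨σ, hσ⟩ := AlgEquiv.restrictNormalHom_surjective (F := k) (K₁ := L) E τ
      refine ⟨σ, fun x => ?_⟩
      rw [← hσ]
      exact (AlgEquiv.restrictNormal_commutes σ L x).symm
    choose s hs using hlift
    refine Nat.card_le_card_of_surjective (fun τ => (s τ : (E ≃ₐ[k] E) ⧸ L.fixingSubgroup)) ?_
    intro q
    obtain ⟨g, rfl⟩ := QuotientGroup.mk_surjective q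
    refine ⟨AlgEquiv.restrictNormalHom L g, ?_⟩
    show ((s _ : (E ≃ₐ[k] E)) : (E ≃ₐ[k] E) ⧸ L.fixingSubgroup) = g
    rw [hsame]
    intro z hz
    rw [show z = ((⟨z, hz⟩ : L) : E) from rfl, hs]
    exact AlgEquiv.restrictNormal_commutes g L ⟨z, hz⟩
  have hcard2 : Nat.card {τ : L ≃ₐ[k] L // ∃ σ : E ≃ₐ[k] E, (∀ x : L, σ x = τ x) ∧
      QM E K0 ℓ (K * j) (Φ σ)} ≤
      Nat.card {q : (E ≃ₐ[k] E) ⧸ L.fixingSubgroup // ∃ g : E ≃ₐ[k] E,
        (g : (E ≃ₐ[k] E) ⧸ L.fixingSubgroup) = q ∧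
        ∃ p : P, ℓ ^ j • p = 0 ∧ ℓ ^ (j - 1) • p ≠ 0 ∧ g • p = p} := by
    have hch : ∀ τ : {τ : L ≃ₐ[k] L // ∃ σ : E ≃ₐ[k] E, (∀ x : L, σ x = τ x) ∧
      QM E K0 ℓ (K * j) (Φ σ)}, ∃ σ : E ≃ₐ[k] E, (∀ x : L, σ x = τ.1 x) ∧
      QM E K0 ℓ (K * j) (Φ σ) := fun τ => τ.2
    choose s hs1 hs2 using hch
    have hfix : ∀ τ, ∃ p : P, ℓ ^ j • p = 0 ∧ ℓ ^ (j - 1) • p ≠ 0 ∧ s τ • p = p := by
      intro τ
      obtain ⟨w, hw1, hw2, hw3⟩ := hqw c Φ hc hA j (s τ) hj (hs2 τ)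
      refine ⟨κ w, ?_, ?_, ?_⟩
      · rw [← ((hκpow w j hw1) (ℓ ^ j)).1]
        obtain ⟨hw0, f, hf, -⟩ := hw1
        refine hκ0 _ (pow_ne_zero _ hw0) ?_
        rw [← hf]
        exact f.2
      · rw [← ((hκpow w j hw1) (ℓ ^ (j - 1))).1, Ne, hzero _ j ((hκpow w j hw1) (ℓ ^ (j - 1))).2]
        exact hw2
      · rw [← hact _ w j hw1, hκeq _ _ j (M.UR_map (toL79 hA₀) _ hw1) hw1]
        -- `Φ` and `Φ₀` differ by a constant
        obtain ⟨e, he⟩ : ∃ e : E, Φ (s τ) w = algebraMap E U e * Φ₀ (s τ) w :=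
          M.UR_const (toL79 hA) (toL79 hA₀) (s τ) (pow_pos hℓ.pos j) hw1
        have he0 : algebraMap E U e ≠ 0 := by
          intro h0
          rw [h0, zero_mul] at he
          exact (map_ne_zero (Φ (s τ))).2 hw1.1 he
        have h2 : Φ₀ (s τ) w * w⁻¹ = (algebraMap E U e)⁻¹ * (Φ (s τ) w * w⁻¹) := by
          rw [he]
          field_simp
        rw [h2]
        exact mul_mem (inv_mem ((L0 E K0 (U := U)).algebraMap_mem e)) hw3
    refine Nat.card_le_card_of_injective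
      (fun τ => ⟨(s τ : (E ≃ₐ[k] E) ⧸ L.fixingSubgroup), s τ, rfl, hfix τ⟩) ?_
    intro τ τ' h2
    have h3 : (s τ : (E ≃ₐ[k] E) ⧸ L.fixingSubgroup) = s τ' := congrArg Subtype.val h2
    rw [hsame] at h3
    apply Subtype.ext
    apply AlgEquiv.ext
    intro z
    apply Subtype.ext
    rw [← hs1 τ z, ← hs1 τ' z]
    exact h3 z z.2
  calc (Nat.card {τ : L ≃ₐ[k] L // ∃ σ : E ≃ₐ[k] E, (∀ x : L, σ x = τ x) ∧
      QM E K0 ℓ (K * j) (Φ σ)} : ℝ) ≤ _ := Nat.cast_le.2 hcard2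
    _ ≤ ε * Nat.card ((E ≃ₐ[k] E) ⧸ L.fixingSubgroup) := h1
    _ ≤ ε * Nat.card (L ≃ₐ[k] L) := mul_le_mul_of_nonneg_left (Nat.cast_le.2 hcard1) hε.le

end Pool.Agent.ML
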