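import Pool.Agent.Helper13.ML.DefsC
import Pool.Agent.Helper5.M.G3M

/-!
# ML, the weights (general form, helper79; after Helper5/M/G3M)
-/

set_option autoImplicit false

namespace Pool.Agent.ML

open Polynomial NumberField IsDedekindDomain
open Pool.Agent.HG (Pr nm Ctx Gd Over StmtMert StmtSplit StmtDer)
open Pool.Agent.Helper99.HG (CD pf Nm Bad)
open Pool.Agent.MP (SysR TAR)
open Pool.Agent.Helper99.ML (BTb WJb TBRb)
open scoped IntermediateField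

/-! ## Numbers -/

theorem num1 {ℓ f m j : ℕ} (hℓ : 2 ≤ ℓ) (hj : j * ℓ ^ 2 < ℓ ^ j) (hfm : f ≤ m)
    (h : f = j ∨ f + 1 ≤ m) : ℓ ^ 2 * f ≤ ℓ ^ m := by
  rcases h with rfl | h
  · have h1 : ℓ ^ f ≤ ℓ ^ m := Nat.pow_le_pow_right (by omega) hfm
    rw [mul_comm]
    omega
  · have h1 : ℓ ^ (f + 1) ≤ ℓ ^ m := Nat.pow_le_pow_right (by omega) h
    refine le_trans ?_ h1
    rcases f with _ | f
    · simp
    · have h2 : f + 1 ≤ 2 ^ f := Nat.lt_two_pow_self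
      have h3 : 2 ^ f ≤ ℓ ^ f := Nat.pow_le_pow_left hℓ f
      calc ℓ ^ 2 * (f + 1) ≤ ℓ ^ 2 * ℓ ^ f := Nat.mul_le_mul_left _ (h2.trans h3)
        _ = ℓ ^ (f + 1 + 1) := by ring

theorem num3 {ℓ j : ℕ} (hℓ : 2 ≤ ℓ) (hj : 5 ≤ j) : j * ℓ ^ 2 < ℓ ^ j := by
  obtain ⟨i, rfl⟩ : ∃ i, j = i + 5 := ⟨j - 5, by omega⟩
  have h1 : i + 5 < 2 ^ (i + 3) := by
    have : i + 1 ≤ 2 ^ i := Nat.lt_two_pow_self
    rw [pow_add]
    omega
  have h2 : 2 ^ (i + 3) ≤ ℓ ^ (i + 3) := Nat.pow_le_pow_left hℓ _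
  have h3 : ℓ ^ (i + 5) = ℓ ^ (i + 3) * ℓ ^ 2 := by ring
  rw [h3]
  exact Nat.mul_lt_mul_of_pos_right (h1.trans_le h2) (by positivity)

theorem num2 {ℓ m j d : ℕ} (hℓ : 2 ≤ ℓ) (hj : j * ℓ ^ 2 < ℓ ^ j) (hm : j ≤ m) (hd : j ≤ d) :
    (ℓ : ℝ) ^ 2 * j * (1 / ℓ) ^ m ≤ 1 - (1 / ℓ) ^ d := by
  have hℓ0 : (0 : ℝ) < ℓ := by exact_mod_cast (by omega : 0 < ℓ)
  have hℓ1 : (1 / (ℓ : ℝ)) ≤ 1 := by
    rw [div_le_one hℓ0]
    exact_mod_cast (by omega : 1 ≤ ℓ)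
  have h0 : (0 : ℝ) ≤ 1 / ℓ := by positivity
  have h1 : (1 / (ℓ : ℝ)) ^ m ≤ (1 / ℓ) ^ j := pow_le_pow_of_le_one h0 hℓ1 hm
  have h2 : (1 / (ℓ : ℝ)) ^ d ≤ (1 / ℓ) ^ j := pow_le_pow_of_le_one h0 hℓ1 hd
  have h3 : (j : ℝ) * ℓ ^ 2 ≤ ℓ ^ j - 1 := by
    have : j * ℓ ^ 2 + 1 ≤ ℓ ^ j := hj
    have h4 : ((j * ℓ ^ 2 + 1 : ℕ) : ℝ) ≤ ((ℓ ^ j : ℕ) : ℝ) := by exact_mod_cast this
    push_cast at h4
    linarith
  have h5 : (ℓ : ℝ) ^ j * (1 / ℓ) ^ j = 1 := by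
    rw [← mul_pow, mul_one_div_cancel hℓ0.ne', one_pow]
  calc (ℓ : ℝ) ^ 2 * j * (1 / ℓ) ^ m ≤ (ℓ : ℝ) ^ 2 * j * (1 / ℓ) ^ j :=
        mul_le_mul_of_nonneg_left h1 (by positivity)
    _ = (j : ℝ) * ℓ ^ 2 * (1 / ℓ) ^ j := by ring
    _ ≤ (ℓ ^ j - 1) * (1 / ℓ) ^ j := mul_le_mul_of_nonneg_right h3 (by positivity)
    _ = 1 - (1 / ℓ) ^ j := by rw [sub_mul, h5, one_mul]
    _ ≤ _ := by linarith

/-! ## Labels -/

open scoped Classical in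
theorem card_lab {n ℓ : ℕ} (hℓ : 0 < ℓ) (hd : ℓ ∣ n) :
    ((Finset.univ : Finset (Fin n)).filter fun e : Fin n => ¬ ℓ ∣ (e : ℕ)).card = n - n / ℓ := by
  obtain ⟨m, rfl⟩ := hd
  rw [Nat.mul_div_cancel_left m hℓ]
  have h1 := Finset.card_filter_add_card_filter_not (s := (Finset.univ : Finset (Fin (ℓ * m))))
    (fun e : Fin (ℓ * m) => ℓ ∣ (e : ℕ))
  rw [Finset.card_univ, Fintype.card_fin] at h1
  have h2 : m = ((Finset.univ : Finset (Fin (ℓ * m))).filter fun e : Fin (ℓ * m) => ℓ ∣ (e : ℕ)).card := by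
    have h3 : (Finset.range m).card =
        ((Finset.univ : Finset (Fin (ℓ * m))).filter fun e : Fin (ℓ * m) => ℓ ∣ (e : ℕ)).card := by
      refine Finset.card_bij
        (fun i hi => (⟨ℓ * i, Nat.mul_lt_mul_of_pos_left (Finset.mem_range.1 hi) hℓ⟩ : Fin (ℓ * m))) ?_ ?_ ?_
      · intro i hi
        exact Finset.mem_filter.2 ⟨Finset.mem_univ _, Dvd.intro _ rfl⟩
      · intro i hi i' hi' h
        exact Nat.eq_of_mul_eq_mul_left hℓ (congrArg Fin.val h)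
      · intro e he
        obtain ⟨i, hi⟩ := (Finset.mem_filter.1 he).2
        refine ⟨i, Finset.mem_range.2 ?_, Fin.ext hi.symm⟩
        have := e.2
        rw [hi] at this
        exact Nat.lt_of_mul_lt_mul_left this
    rw [Finset.card_range] at h3
    exact h3
  omega

section lab

variable {k : Type} [Field k] [NumberField k] {n : ℕ}

open scoped Classical in
theorem sum_lab_le (E : Finset (Fin n)) (S : Finset (Pr k × Fin n)) (hS : ∀ p ∈ S, p.2 ∈ E) (F : Pr k → ℝ)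
    (hF : ∀ v, 0 ≤ F v) (G : Pr k × Fin n → ℝ) (hG : ∀ p ∈ S, G p ≤ F p.1) :
    ∑ p ∈ S, G p ≤ E.card * ∑ v ∈ S.image Prod.fst, F v := by
  have h1 : S ⊆ S.image Prod.fst ×ˢ E := fun p hp =>
    Finset.mem_product.2 ⟨Finset.mem_image_of_mem _ hp, hS p hp⟩
  calc ∑ p ∈ S, G p ≤ ∑ p ∈ S, F p.1 := Finset.sum_le_sum hG
    _ ≤ ∑ p ∈ S.image Prod.fst ×ˢ E, F p.1 := Finset.sum_le_sum_of_subset_of_nonneg h1 fun p _ _ => hF p.1
    _ = ∑ v ∈ S.image Prod.fst, E.card * F v := by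
      rw [Finset.sum_product]
      refine Finset.sum_congr rfl fun v _ => ?_
      change ∑ _y ∈ E, F v = _
      rw [Finset.sum_const, nsmul_eq_mul]
    _ = _ := by rw [Finset.mul_sum]

open scoped Classical in
/-- the primes with labels -/
theorem sysL (hMe : StmtMert) (E : Finset (Fin n)) (R₀ : Set (Pr k)) {B₀ : ℕ → Finset (Pr k)}
    (hB₀ : ∀ x v, v ∈ B₀ x ↔ nm v ≤ x) {κ C₂ : ℝ} (h2 : ∀ x : ℕ, 2 ≤ x →
      |∑ v ∈ (B₀ x).filter (· ∈ R₀), (1 : ℝ) / nm v - κ * Real.log (Real.log x)| ≤ C₂) :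
    SysR (Pr k × Fin n) (fun p => nm p.1) {p | p.2 ∈ E ∧ p.1 ∈ R₀} (E.card * κ) := by
  have hs := HG.sys5 hMe k
  obtain ⟨C₁, hC₁⟩ := hs.cheb
  refine ⟨fun p => hs.two p.1, fun x => ?_, ⟨(Finset.univ : Finset (Fin n)).card * C₁, fun x S hS => ?_⟩,
    ⟨E.card * (2 * C₂), fun y x hy hyx S hS => ?_⟩⟩
  · refine ((hs.fin x).prod (Set.finite_univ (α := Fin n))).subset ?_
    intro p hp
    exact ⟨hp, Set.mem_univ _⟩
  · refine (sum_lab_le Finset.univ S (fun p _ => Finset.mem_univ _) (fun v => Real.log (nm v)) (fun v => ?_) _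
      fun p _ => le_refl _).trans ?_
    · apply Real.log_nonneg
      have := hs.two v
      exact_mod_cast (by omega : 1 ≤ nm v)
    · rw [mul_assoc]
      refine mul_le_mul_of_nonneg_left (hC₁ x _ fun v hv => ?_) (Nat.cast_nonneg _)
      obtain ⟨p, hp, rfl⟩ := Finset.mem_image.1 hv
      exact hS p hp
  · refine (sum_lab_le E S (fun p hp => (hS p hp).1.1) (fun v => (1 : ℝ) / nm v) (fun v => by positivity) _
      fun p _ => le_refl _).trans ?_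
    have h3 := HG.upperQ5 hB₀ R₀ (by convert h2) hy hyx (S.image Prod.fst) (fun v hv => by
      obtain ⟨p, hp, rfl⟩ := Finset.mem_image.1 hv
      exact ⟨(hS p hp).1.2, (hS p hp).2⟩)
    calc (E.card : ℝ) * ∑ v ∈ S.image Prod.fst, (1 : ℝ) / nm v
        ≤ E.card * (κ * (Real.log (Real.log x) - Real.log (Real.log y)) + 2 * C₂) :=
          mul_le_mul_of_nonneg_left h3 (Nat.cast_nonneg _)
      _ = _ := by ring

end lab

/-! ## The weights -/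

section wt

variable {k L : Type} [Field k] [NumberField k] [Field L] [NumberField L] [Algebra k L]
  [IsGalois k L] {f : k[X]} (X : Ctx k L f) (n ℓ : ℕ) [NeZero ℓ]

open scoped Classical in
theorem wjL_def (hm : 0 < X.m) (hfin : {v : Pr k | ¬ Gd X.M v}.Finite) (ι : Type)
    (Vι : Pr k → L → Finset ι) (Al : Fin n → L → Prop) (w : L → Fin n → ℕ)
    (g : Pr k × Fin n → (Σ _ : L × rootsOfUnity ℓ k, ι) → L → rootsOfUnity ℓ k)
    (b : ℝ) (J : Finset (Fin X.m)) (p : Pr k × Fin n) :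
    WJb (cdL X n ℓ hm hfin ι Vι Al w g) b J p =
      ∑ o ∈ ((((X.Fx p.1).filter fun θ => Al p.2 θ) ×ˢ
        (Set.toFinite (Set.univ : Set (rootsOfUnity ℓ k))).toFinset).sigma fun o => Vι p.1 o.1).filter
        (fun o : (Σ _ : L × rootsOfUnity ℓ k, ι) => X.cmp hm o.1.1 ∈ J),
        b ^ (∑ j ∈ J, (((X.R p.1).filter fun ρ => X.cmp hm ρ = j).erase o.1.1).card) := rfl

omit [NumberField k] in
open scoped Classical in
theorem card_mu :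
    (Set.toFinite (Set.univ : Set (rootsOfUnity ℓ k))).toFinset.card ≤ ℓ := by
  let _ : Fintype (rootsOfUnity ℓ k) := Fintype.ofFinite _
  have h1 : (Set.toFinite (Set.univ : Set (rootsOfUnity ℓ k))).toFinset = Finset.univ := by
    ext x
    simp
  rw [h1, Finset.card_univ, ← Nat.card_eq_fintype_card]
  exact card_rootsOfUnity k ℓ

/-- the weight is at most `c ℓ² f / ℓ ^ m` -/
theorem wjL_le (hℓ : 0 < ℓ) (hm : 0 < X.m) (hfin : {v : Pr k | ¬ Gd X.M v}.Finite) (ι : Type)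
    (Vι : Pr k → L → Finset ι) (Al : Fin n → L → Prop) (w : L → Fin n → ℕ)
    (g : Pr k × Fin n → (Σ _ : L × rootsOfUnity ℓ k, ι) → L → rootsOfUnity ℓ k)
    (J : Finset (Fin X.m)) (p : Pr k × Fin n) (c : ℕ) (hc : ∀ t, (Vι p.1 t).card ≤ c) :
    WJb (cdL X n ℓ hm hfin ι Vι Al w g) (1 / ℓ) J p ≤
      c * ((ℓ : ℝ) ^ 2 * (X.FJ5 hm J p.1).card * (1 / ℓ) ^ (X.RJ5 hm J p.1).card) := by
  classical
  have hℓ0 : (0 : ℝ) < ℓ := by exact_mod_cast hℓ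
  rw [wjL_def]
  set μ := (Set.toFinite (Set.univ : Set (rootsOfUnity ℓ k))).toFinset with hμ
  have hμc : μ.card ≤ ℓ := card_mu ℓ
  have hsub : ((((X.Fx p.1).filter fun θ => Al p.2 θ) ×ˢ μ).sigma fun o => Vι p.1 o.1).filter
        (fun o : (Σ _ : L × rootsOfUnity ℓ k, ι) => X.cmp hm o.1.1 ∈ J) ⊆
      (X.FJ5 hm J p.1 ×ˢ μ).sigma fun o => Vι p.1 o.1 := by
    intro o ho
    rw [Finset.mem_filter, Finset.mem_sigma, Finset.mem_product, Finset.mem_filter] at ho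
    rw [Finset.mem_sigma, Finset.mem_product, Ctx.mem_FJ5]
    have h1 := ho.1.1.1.1
    unfold Ctx.Fx at h1
    rw [Finset.mem_filter] at h1
    exact ⟨⟨⟨h1, ho.2⟩, ho.1.1.2⟩, ho.1.2⟩
  have hval : ∀ o ∈ (X.FJ5 hm J p.1 ×ˢ μ).sigma fun o => Vι p.1 o.1,
      (1 / (ℓ : ℝ)) ^ (∑ j ∈ J, (((X.R p.1).filter fun ρ => X.cmp hm ρ = j).erase o.1.1).card) =
        ℓ * (1 / ℓ) ^ (X.RJ5 hm J p.1).card := by
    intro o ho
    have h2 := (Finset.mem_product.1 (Finset.mem_sigma.1 ho).1).1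
    have h3 : o.1.1 ∈ X.RJ5 hm J p.1 := X.FJ_sub_RJ5 hm J p.1 h2
    have h4 : ∑ j ∈ J, (((X.R p.1).filter fun ρ => X.cmp hm ρ = j).erase o.1.1).card =
        ((X.RJ5 hm J p.1).erase o.1.1).card := by
      rw [Finset.card_eq_sum_card_fiberwise (f := X.cmp hm) (t := J)]
      · refine Finset.sum_congr rfl fun j hj => ?_
        congr 1
        ext ρ
        rw [Finset.mem_erase, Finset.mem_filter, Finset.mem_filter, Finset.mem_erase, Ctx.mem_RJ5]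
        constructor
        · rintro ⟨a1, a2, a3⟩
          exact ⟨⟨a1, a2, by rw [a3]; exact hj⟩, a3⟩
        · rintro ⟨⟨a1, a2, _⟩, a3⟩
          exact ⟨a1, a2, a3⟩
      · intro ρ hρ
        have h5 := Finset.mem_of_mem_erase hρ
        exact ((X.mem_RJ5 hm J p.1 ρ).1 h5).2
    rw [h4]
    have h5 := Finset.card_erase_add_one h3
    rw [← h5, pow_succ]
    field_simp
  refine (Finset.sum_le_sum_of_subset_of_nonneg hsub fun o _ _ => by positivity).trans ?_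
  rw [Finset.sum_congr rfl hval, Finset.sum_const, nsmul_eq_mul]
  have hcard : ((X.FJ5 hm J p.1 ×ˢ μ).sigma fun o => Vι p.1 o.1).card ≤ c * ((X.FJ5 hm J p.1).card * ℓ) := by
    rw [Finset.card_sigma]
    refine (Finset.sum_le_card_nsmul _ _ c fun o _ => hc o.1).trans ?_
    rw [smul_eq_mul, Finset.card_product, mul_comm]
    exact Nat.mul_le_mul_left c (Nat.mul_le_mul_left _ hμc)
  have h6 : ((((X.FJ5 hm J p.1 ×ˢ μ).sigma fun o => Vι p.1 o.1).card : ℕ) : ℝ) ≤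
      ((c * ((X.FJ5 hm J p.1).card * ℓ) : ℕ) : ℝ) := Nat.cast_le.2 hcard
  refine (mul_le_mul_of_nonneg_right h6 (by positivity)).trans (le_of_eq ?_)
  push_cast
  ring

theorem card_V_le (hm : 0 < X.m) (hfin : {v : Pr k | ¬ Gd X.M v}.Finite) (ι : Type)
    (Vι : Pr k → L → Finset ι) (Al : Fin n → L → Prop) (w : L → Fin n → ℕ)
    (g : Pr k × Fin n → (Σ _ : L × rootsOfUnity ℓ k, ι) → L → rootsOfUnity ℓ k) (K : ℕ)
    (hK : ∀ v t, (Vι v t).card ≤ K) (p : Pr k × Fin n) :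
    ((cdL X n ℓ hm hfin ι Vι Al w g).V p).card ≤ X.Ω.card * ℓ * K := by
  classical
  change ((((X.Fx p.1).filter fun θ => Al p.2 θ) ×ˢ
    (Set.toFinite (Set.univ : Set (rootsOfUnity ℓ k))).toFinset).sigma fun o => Vι p.1 o.1).card ≤ _
  rw [Finset.card_sigma]
  refine (Finset.sum_le_card_nsmul _ _ K fun o _ => hK p.1 o.1).trans ?_
  rw [smul_eq_mul, Finset.card_product]
  refine Nat.mul_le_mul_right K (Nat.mul_le_mul ?_ (card_mu ℓ))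
  refine (Finset.card_filter_le _ _).trans ?_
  unfold Ctx.Fx
  exact Finset.card_filter_le _ _

/-- the weight is at most `c` if `|J|` is large -/
theorem wjL_le_one (hℓ : 2 ≤ ℓ) (hm : 0 < X.m) (hfin : {v : Pr k | ¬ Gd X.M v}.Finite) (ι : Type)
    (Vι : Pr k → L → Finset ι) (Al : Fin n → L → Prop) (w : L → Fin n → ℕ)
    (g : Pr k × Fin n → (Σ _ : L × rootsOfUnity ℓ k, ι) → L → rootsOfUnity ℓ k)
    (J : Finset (Fin X.m)) (hJ : (X.ΩJ5 hm J).card * ℓ ^ 2 < ℓ ^ (X.ΩJ5 hm J).card)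
    (p : Pr k × Fin n) (c : ℕ) (hc : ∀ t, (Vι p.1 t).card ≤ c) :
    WJb (cdL X n ℓ hm hfin ι Vι Al w g) (1 / ℓ) J p ≤ c := by
  refine (wjL_le X n ℓ (by omega) hm hfin ι Vι Al w g J p c hc).trans ?_
  have hℓ0 : (0 : ℝ) < ℓ := by exact_mod_cast (by omega : 0 < ℓ)
  have h1 : ℓ ^ 2 * (X.FJ5 hm J p.1).card ≤ ℓ ^ (X.RJ5 hm J p.1).card := by
    refine num1 hℓ hJ (Finset.card_le_card (X.FJ_sub_RJ5 hm J p.1)) ?_
    rcases lt_or_ge (X.FJ5 hm J p.1).card (X.ΩJ5 hm J).card with h | h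
    · exact Or.inr (X.card_RJ5 hm J p.1 h)
    · exact Or.inl (le_antisymm (Finset.card_le_card (X.FJ_sub_ΩJ5 hm J p.1)) h)
  have h2 : (ℓ : ℝ) ^ 2 * (X.FJ5 hm J p.1).card ≤ ℓ ^ (X.RJ5 hm J p.1).card := by exact_mod_cast h1
  have h3 : (ℓ : ℝ) ^ 2 * (X.FJ5 hm J p.1).card * (1 / ℓ) ^ (X.RJ5 hm J p.1).card ≤ 1 := by
    rw [one_div, inv_pow, ← div_eq_mul_inv, div_le_one (by positivity)]
    exact h2
  calc (c : ℝ) * ((ℓ : ℝ) ^ 2 * (X.FJ5 hm J p.1).card * (1 / ℓ) ^ (X.RJ5 hm J p.1).card) ≤ c * 1 :=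
        mul_le_mul_of_nonneg_left h3 (Nat.cast_nonneg c)
    _ = c := mul_one _

/-- the weight at the split primes -/
theorem wjL_split (hℓ : 2 ≤ ℓ) (hm : 0 < X.m) (hfin : {v : Pr k | ¬ Gd X.M v}.Finite) (ι : Type)
    (Vι : Pr k → L → Finset ι) (Al : Fin n → L → Prop) (w : L → Fin n → ℕ)
    (g : Pr k × Fin n → (Σ _ : L × rootsOfUnity ℓ k, ι) → L → rootsOfUnity ℓ k)
    (J : Finset (Fin X.m)) (hJ : (X.ΩJ5 hm J).card * ℓ ^ 2 < ℓ ^ (X.ΩJ5 hm J).card)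
    (p : Pr k × Fin n) (hc : ∀ t, (Vι p.1 t).card ≤ 1) (h : ∀ θ ∈ X.Ω, X.F p.1 θ = θ) :
    WJb (cdL X n ℓ hm hfin ι Vι Al w g) (1 / ℓ) J p ≤ 1 - (1 / ℓ) ^ X.Ω.card := by
  refine (wjL_le X n ℓ (by omega) hm hfin ι Vι Al w g J p 1 hc).trans ?_
  have h0 : X.FJ5 hm J p.1 = X.ΩJ5 hm J := by
    ext ρ
    rw [Ctx.mem_FJ5, Ctx.mem_ΩJ5]
    exact ⟨fun a => ⟨a.1.1, a.2⟩, fun a => ⟨⟨a.1, h ρ a.1⟩, a.2⟩⟩
  rw [Nat.cast_one, one_mul]
  have h1 := Finset.card_le_card (X.FJ_sub_RJ5 hm J p.1)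
  rw [h0] at h1 ⊢
  refine num2 hℓ hJ h1 (Finset.card_le_card ?_)
  intro ρ hρ
  rw [Ctx.mem_ΩJ5] at hρ
  exact hρ.1

open scoped Classical in
/-- few roots: the primes of `Q'` with the label `e₀` have no options in `J` -/
theorem tarL (hm : 0 < X.m) (hfin : {v : Pr k | ¬ Gd X.M v}.Finite) (ι : Type)
    (Vι : Pr k → L → Finset ι) (Al : Fin n → L → Prop) (w : L → Fin n → ℕ)
    (g : Pr k × Fin n → (Σ _ : L × rootsOfUnity ℓ k, ι) → L → rootsOfUnity ℓ k)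
    (J : Finset (Fin X.m)) (E : Finset (Fin n)) (R₀ : Set (Pr k)) (e₀ : Fin n) (he₀ : e₀ ∈ E)
    {B₀ : ℕ → Finset (Pr k)} (hB₀ : ∀ x v, v ∈ B₀ x ↔ nm v ≤ x) (Q' : Set (Pr k)) {δ C : ℝ} (hδ : 0 < δ)
    (hC : ∀ x : ℕ, 2 ≤ x →
      |∑ v ∈ (B₀ x).filter (· ∈ Q'), (1 : ℝ) / nm v - δ * Real.log (Real.log x)| ≤ C)
    (hQ' : ∀ v ∈ Q', Gd X.M v → v ∈ R₀ ∧ ∀ θ ∈ X.FJ5 hm J v, ¬ Al e₀ θ) :
    TAR (cdL X n ℓ hm hfin ι Vι Al w g) {p : Pr k × Fin n | p.2 ∈ E ∧ p.1 ∈ R₀} J := by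
  refine ⟨δ, 2 * C + ∑ v ∈ hfin.toFinset, (1 : ℝ) / nm v, hδ,
    fun y x hy hyx (S : Finset (Pr k × Fin n)) hS => ?_⟩
  have hS' : ∀ p : Pr k × Fin n, p ∈ S ↔ (p.2 ∈ E ∧ p.1 ∈ R₀) ∧ p ∉ hfin.toFinset ×ˢ (Finset.univ : Finset (Fin n)) ∧
      y < nm p.1 ∧ nm p.1 ≤ x ∧ ∀ o ∈ (cdL X n ℓ hm hfin ι Vι Al w g).V p, X.cmp hm o.1.1 ∉ J := hS
  have h1 := HG.diff5 hB₀ Q' (by convert hC) hfin.toFinset hy hyx ((S.filter fun p => p.2 = e₀).image Prod.fst)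
    (fun v hvQ h1 h2 h3 => by
      have hv : Gd X.M v := by
        by_contra h8
        exact h3 (hfin.mem_toFinset.2 h8)
      obtain ⟨hR, hA⟩ := hQ' v hvQ hv
      refine Finset.mem_image.2 ⟨(v, e₀), Finset.mem_filter.2 ⟨(hS' (v, e₀)).2 ⟨⟨he₀, hR⟩, ?_, h1, h2, ?_⟩, rfl⟩, rfl⟩
      · rw [Finset.mem_product, not_and_or]
        exact Or.inl h3
      · intro o ho hoJ
        have ho' : o ∈ ((((X.Fx v).filter fun θ => Al e₀ θ) ×ˢ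
          (Set.toFinite (Set.univ : Set (rootsOfUnity ℓ k))).toFinset).sigma fun o => Vι v o.1) := ho
        have h4 := (Finset.mem_product.1 (Finset.mem_sigma.1 ho').1).1
        rw [Finset.mem_filter] at h4
        refine hA o.1.1 ?_ h4.2
        unfold Ctx.FJ5
        exact Finset.mem_filter.2 ⟨h4.1, hoJ⟩)
  refine h1.trans ?_
  have h2 : ∑ v ∈ (S.filter fun p => p.2 = e₀).image Prod.fst, (1 : ℝ) / nm v =
      ∑ p ∈ S.filter fun p => p.2 = e₀, (1 : ℝ) / nm p.1 := by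
    rw [Finset.sum_image]
    intro p hp p' hp' h
    rw [Finset.mem_coe, Finset.mem_filter] at hp hp'
    exact Prod.ext h (hp.2.trans hp'.2.symm)
  rw [h2]
  exact Finset.sum_le_sum_of_subset_of_nonneg (Finset.filter_subset _ _) fun p _ _ => by positivity

open scoped Classical in
/-- many roots: the weights are less than `κ` in the mean -/
theorem tbrL (hℓ : 2 ≤ ℓ) (K : ℕ) {δs Cs : ℝ} {Qs : Set (Pr k)} (hδs : 0 < δs)
    (hQs : ∀ v ∈ Qs, ∀ P : Pr L, P.asIdeal.comap (algebraMap (𝓞 k) (𝓞 L)) = v.asIdeal →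
        ∀ z : 𝓞 L, z ^ nm v - z ∈ P.asIdeal)
    {B₀ : ℕ → Finset (Pr k)} (hB₀ : ∀ x v, v ∈ B₀ x ↔ nm v ≤ x)
    (hCs : ∀ x : ℕ, 2 ≤ x →
      |∑ v ∈ (B₀ x).filter (· ∈ Qs), (1 : ℝ) / nm v - δs * Real.log (Real.log x)| ≤ Cs)
    {R₀ : Set (Pr k)} {κ C₂ : ℝ} (h2 : ∀ x : ℕ, 2 ≤ x →
      |∑ v ∈ (B₀ x).filter (· ∈ R₀), (1 : ℝ) / nm v - κ * Real.log (Real.log x)| ≤ C₂)
    (E : Finset (Fin n)) (hE : E.Nonempty)
    (hm : 0 < X.m) (hfin : {v : Pr k | ¬ Gd X.M v}.Finite) (ι : Type)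
    (Vι : Pr k → L → Finset ι) (Al : Fin n → L → Prop) (w : L → Fin n → ℕ)
    (g : Pr k × Fin n → (Σ _ : L × rootsOfUnity ℓ k, ι) → L → rootsOfUnity ℓ k)
    (hK : ∀ v t, (Vι v t).card ≤ K) (Q : Set (Pr k))
    (hQ : ∀ v ∉ Q, Gd X.M v → ∀ t, (Vι v t).card ≤ 1)
    {B : ℕ → Finset (Pr k)} (hB : ∀ x v, v ∈ B x ↔ nm v ≤ x) {δ C : ℝ}
    (hδ : δ ≤ (1 / (ℓ : ℝ)) ^ X.Ω.card / 2 * δs / (K + (1 / (ℓ : ℝ)) ^ X.Ω.card))
    (hC : ∀ x : ℕ, 2 ≤ x →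
      |∑ v ∈ (B x).filter (· ∈ Q), (1 : ℝ) / nm v - δ * Real.log (Real.log x)| ≤ C)
    (J : Finset (Fin X.m)) (hJ0 : (X.ΩJ5 hm J).Nonempty)
    (hJ : (X.ΩJ5 hm J).card * ℓ ^ 2 < ℓ ^ (X.ΩJ5 hm J).card)
    (hR : ∀ v, Gd X.M v → (∀ θ ∈ X.Ω, X.F v θ = θ) → v ∈ R₀) :
    TBRb (cdL X n ℓ hm hfin ι Vι Al w g) (1 / ℓ) {p : Pr k × Fin n | p.2 ∈ E ∧ p.1 ∈ R₀} (E.card * κ) J := by
  have hℓ0 : (0 : ℝ) < ℓ := by exact_mod_cast (by omega : 0 < ℓ)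
  set a : ℝ := (1 / (ℓ : ℝ)) ^ X.Ω.card with ha
  have ha0 : 0 < a := by positivity
  have ha1 : a ≤ 1 := pow_le_one₀ (by positivity) (by
    rw [div_le_one hℓ0]
    exact_mod_cast (by omega : 1 ≤ ℓ))
  have hKpos : (0 : ℝ) < K + a := by positivity
  have hEc : (0 : ℝ) < E.card := by exact_mod_cast hE.card_pos
  obtain ⟨θ₀, hθ₀⟩ := hJ0
  rw [Ctx.mem_ΩJ5] at hθ₀
  refine ⟨⟨_, hθ₀.2⟩, E.card * (a / 2 * δs), E.card * (2 * C₂ + a * (2 * Cs + ∑ v ∈ hfin.toFinset, (1 : ℝ) / nm v) +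
    (K + a) * (2 * C)), by positivity, fun y x hy hyx (S : Finset (Pr k × Fin n)) hS => ?_⟩
  have hS' : ∀ p : Pr k × Fin n, p ∈ S ↔ (p.2 ∈ E ∧ p.1 ∈ R₀) ∧
      p ∉ hfin.toFinset ×ˢ (Finset.univ : Finset (Fin n)) ∧ y < nm p.1 ∧ nm p.1 ≤ x := hS
  set SV : Finset (Pr k) := S.image Prod.fst with hSV
  have hSV' : ∀ v, v ∈ SV ↔ v ∈ R₀ ∧ v ∉ hfin.toFinset ∧ y < nm v ∧ nm v ≤ x := by
    intro v
    rw [hSV, Finset.mem_image]
    constructor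
    · rintro ⟨p, hp, rfl⟩
      have h1 := (hS' p).1 hp
      exact ⟨h1.1.2, fun h => h1.2.1 (Finset.mem_product.2 ⟨h, Finset.mem_univ _⟩), h1.2.2⟩
    · rintro ⟨h1, h2, h3⟩
      obtain ⟨e, he⟩ := hE
      exact ⟨(v, e), (hS' (v, e)).2 ⟨⟨he, h1⟩, fun h => h2 (Finset.mem_product.1 h).1, h3⟩, rfl⟩
  have hLL : Real.log (Real.log y) ≤ Real.log (Real.log x) :=
    Real.log_le_log (Real.log_pos (by exact_mod_cast (by omega : 1 < y)))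
      (Real.log_le_log (by exact_mod_cast (by omega : 0 < y)) (by exact_mod_cast hyx))
  have hgd : ∀ v, v ∉ hfin.toFinset → Gd X.M v := by
    intro v hv
    by_contra h8
    exact hv (hfin.mem_toFinset.2 h8)
  have hfix : ∀ v ∈ Qs, Gd X.M v → ∀ θ ∈ X.Ω, X.F v θ = θ := fun v hv hg θ hθ =>
    X.fix_split5 hg (hQs v hv (X.P v) (X.comap v)) hθ
  have e1 := HG.upperQ5 hB₀ R₀ (by convert h2) hy hyx SV
    fun v hv => ⟨((hSV' v).1 hv).1, ((hSV' v).1 hv).2.2⟩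
  have e2 := HG.diff5 hB₀ Qs (by convert hCs) hfin.toFinset hy hyx (SV.filter (· ∈ Qs))
    fun v hvQ h1 h2 h3 => by
      rw [Finset.mem_filter, hSV']
      exact ⟨⟨hR v (hgd v h3) (hfix v hvQ (hgd v h3)), h3, h1, h2⟩, hvQ⟩
  have e2' := HG.upperQ5 hB Q (by convert hC) hy hyx (SV.filter (· ∈ Q))
    fun v hv => by
      rw [Finset.mem_filter, hSV'] at hv
      exact ⟨hv.2, hv.1.2.2⟩
  -- the bound for the weights
  let bd : Pr k → ℝ := fun v => 1 - a * (if v ∈ Qs then (1 : ℝ) else 0) + (K + a) * (if v ∈ Q then (1 : ℝ) else 0)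
  have hbd0 : ∀ v, 0 ≤ bd v := by
    intro v
    simp only [bd]
    split_ifs <;> nlinarith
  have key : ∀ p ∈ S, WJb (cdL X n ℓ hm hfin ι Vι Al w g) (1 / ℓ) J p ≤ bd p.1 := by
    intro p hp
    have hg : Gd X.M p.1 := hgd p.1 fun h => ((hS' p).1 hp).2.1 (Finset.mem_product.2 ⟨h, Finset.mem_univ _⟩)
    simp only [bd]
    by_cases hvQ : p.1 ∈ Q
    · have h6 := wjL_le_one X n ℓ hℓ hm hfin ι Vι Al w g J hJ p K (hK p.1)
      rw [if_pos hvQ]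
      split_ifs <;> nlinarith
    · rw [if_neg hvQ, mul_zero, add_zero]
      split_ifs with h
      · have := wjL_split X n ℓ hℓ hm hfin ι Vι Al w g J hJ p (hQ p.1 hvQ hg) (hfix p.1 h hg)
        linarith
      · have := wjL_le_one X n ℓ hℓ hm hfin ι Vι Al w g J hJ p 1 (hQ p.1 hvQ hg)
        rw [Nat.cast_one] at this
        linarith
  have e3 : ∑ p ∈ S, WJb (cdL X n ℓ hm hfin ι Vι Al w g) (1 / ℓ) J p / nm p.1 ≤
      E.card * ∑ v ∈ SV, bd v / nm v := by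
    refine sum_lab_le E S (fun p hp => ((hS' p).1 hp).1.1) (fun v => bd v / nm v)
      (fun v => div_nonneg (hbd0 v) (Nat.cast_nonneg _)) _ fun p hp => ?_
    exact div_le_div_of_nonneg_right (key p hp) (Nat.cast_nonneg _)
  have e4 : ∑ v ∈ SV, bd v / nm v =
      ∑ v ∈ SV, (1 : ℝ) / nm v - a * ∑ v ∈ SV.filter (· ∈ Qs), (1 : ℝ) / nm v +
        (K + a) * ∑ v ∈ SV.filter (· ∈ Q), (1 : ℝ) / nm v := by
    rw [Finset.sum_filter, Finset.sum_filter, Finset.mul_sum, Finset.mul_sum, ← Finset.sum_sub_distrib,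
      ← Finset.sum_add_distrib]
    refine Finset.sum_congr rfl fun v _ => ?_
    simp only [bd]
    split_ifs <;> ring
  have e5 : (K + a : ℝ) * (δ * (Real.log (Real.log x) - Real.log (Real.log y))) ≤
      a / 2 * δs * (Real.log (Real.log x) - Real.log (Real.log y)) := by
    rw [← mul_assoc]
    refine mul_le_mul_of_nonneg_right ?_ (by linarith)
    rw [le_div_iff₀ hKpos] at hδ
    linarith
  have e6 : (K + a : ℝ) * ∑ v ∈ SV.filter (· ∈ Q), (1 : ℝ) / nm v ≤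
      (K + a) * (δ * (Real.log (Real.log x) - Real.log (Real.log y)) + 2 * C) :=
    mul_le_mul_of_nonneg_left e2' hKpos.le
  have e7 : a * (δs * (Real.log (Real.log x) - Real.log (Real.log y)) -
      (2 * Cs + ∑ v ∈ hfin.toFinset, (1 : ℝ) / nm v)) ≤ a * ∑ v ∈ SV.filter (· ∈ Qs), (1 : ℝ) / nm v :=
    mul_le_mul_of_nonneg_left e2 ha0.le
  have e8 : ∑ v ∈ SV, bd v / nm v ≤ (κ - a / 2 * δs) * (Real.log (Real.log x) - Real.log (Real.log y)) +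
      (2 * C₂ + a * (2 * Cs + ∑ v ∈ hfin.toFinset, (1 : ℝ) / nm v) + (K + a) * (2 * C)) := by
    rw [e4]
    rw [mul_add] at e6
    nlinarith
  change ∑ p ∈ S, WJb (cdL X n ℓ hm hfin ι Vι Al w g) (1 / ℓ) J p / nm p.1 ≤ _
  refine e3.trans ((mul_le_mul_of_nonneg_left e8 hEc.le).trans (le_of_eq ?_))
  ring

end wt

end Pool.Agent.ML
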